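import Pool.Agent.Helper36_XQ.Stmt4

/-!
Squad XQ (MP_5b0138_an), part A4, module A4_LC4 (helper37): locality in the configuration of G4.
-/

set_option autoImplicit false

namespace Pool.Agent.XQ.K4.H37

open MeasureTheory Complex Filter Topology ProbabilityTheory Pool.Agent.H16Iso Pool.Agent.H62T
  Pool.Agent.H16F Pool.Agent.H38KL Pool.Agent.AEU
open scoped ENNReal NNReal

lemma u4_0 (α α' θ θ' : ℝ) (x : ℂ) :
    ip (u4 α α' θ θ' 0) x = -Real.sin α * x.re + Real.cos α * x.im := by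
  have h : u4 α α' θ θ' 0 = I * exp (α * I) := rfl
  have h' : ∀ a b : ℂ, ip a b = a.re * b.re + a.im * b.im := fun _ _ => rfl
  rw [h, h']
  simp only [mul_re, mul_im, I_re, I_im, Complex.exp_ofReal_mul_I_re,
    Complex.exp_ofReal_mul_I_im]
  ring

lemma u4_1 (α α' θ θ' : ℝ) (x : ℂ) : ip (u4 α α' θ θ' 1) x = -x.im := by
  have h : u4 α α' θ θ' 1 = -(I * exp (-((0 : ℝ) * I))) := rfl
  have h' : ∀ a b : ℂ, ip a b = a.re * b.re + a.im * b.im := fun _ _ => rfl
  rw [h, h']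
  simp

lemma u4_2 (α α' θ θ' : ℝ) (x : ℂ) :
    ip (u4 α α' θ θ' 2) x = Real.sin α' * x.re + Real.cos α' * x.im := by
  have h : u4 α α' θ θ' 2 = exp ((Real.pi / 2 - α' : ℝ) * I) := rfl
  have h' : ∀ a b : ℂ, ip a b = a.re * b.re + a.im * b.im := fun _ _ => rfl
  rw [h, h', Complex.exp_ofReal_mul_I_re, Complex.exp_ofReal_mul_I_im,
    Real.cos_pi_div_two_sub, Real.sin_pi_div_two_sub]

lemma norm_u4 (α α' θ θ' : ℝ) (s : Fin 4) : ‖u4 α α' θ θ' s‖ = 1 := by
  fin_cases s
  · show ‖I * exp (α * I)‖ = 1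
    rw [norm_mul, norm_I, Complex.norm_exp_ofReal_mul_I, one_mul]
  · show ‖-(I * exp (-((0 : ℝ) * I)))‖ = 1
    simp
  · exact Complex.norm_exp_ofReal_mul_I _
  · exact Complex.norm_exp_ofReal_mul_I _

theorem lc4 (h1 : LccStatement) : Lc4Statement := by
  intro α α' θ θ' d a H
  have hpi := Real.pi_pos
  have sa : 0 < Real.sin α := Real.sin_pos_of_pos_of_lt_pi (by linarith [H.a1]) H.a2
  have sa' : 0 < Real.sin α' := Real.sin_pos_of_pos_of_lt_pi (by linarith [H.b1]) H.b2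
  have ca : Real.cos α < 0 := Real.cos_neg_of_pi_div_two_lt_of_lt H.a1 (by linarith [H.a2])
  have ca' : Real.cos α' < 0 := Real.cos_neg_of_pi_div_two_lt_of_lt H.b1 (by linarith [H.b2])
  refine h1 _ _ _ _ (norm_u4 α α' θ θ') ?_ ?_
  · intro x hx
    by_contra hcon
    push Not at hcon
    obtain ⟨hM, hE⟩ := hcon
    have g0 := hM 0 (by decide)
    have g2 := hM 2 (by decide)
    have g1 := hE 1 (by decide)
    rw [u4_0] at g0
    rw [u4_1] at g1
    rw [u4_2] at g2
    have hb : 0 ≤ x.im := by linarith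
    have e1 : Real.cos α * x.im ≤ 0 := mul_nonpos_of_nonpos_of_nonneg ca.le hb
    have e2 : Real.cos α' * x.im ≤ 0 := mul_nonpos_of_nonpos_of_nonneg ca'.le hb
    have h3 : Real.sin α * x.re ≤ 0 := by linarith
    have h4 : 0 ≤ Real.sin α' * x.re := by linarith
    have h5 : x.re = 0 :=
      le_antisymm (nonpos_of_mul_nonpos_right h3 sa) (nonneg_of_mul_nonneg_right h4 sa')
    rw [h5] at g0
    have h6 : 0 ≤ Real.cos α * x.im := by linarith
    have h7 : Real.cos α * x.im = 0 := le_antisymm e1 h6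
    have h8 : x.im = 0 := by
      rcases mul_eq_zero.1 h7 with h | h
      · exact absurd h ca.ne
      · exact h
    exact hx (Complex.ext h5 h8)
  · rintro ⟨x, hM, hE⟩
    have g0 := hM 0 (by decide)
    have g2 := hM 2 (by decide)
    have g1 := hE 1 (by decide)
    have k0 : h4 α' θ θ' d a 0 = 0 := rfl
    have k1 : h4 α' θ θ' d a 1 = 0 := rfl
    have k2 : h4 α' θ θ' d a 2 = Real.sin α' * d := by
      have h : h4 α' θ θ' d a 2 = ip (u4 α α' θ θ' 2) d := rfl
      rw [h, u4_2]; simp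
    rw [u4_0, k0] at g0
    rw [u4_1, k1] at g1
    rw [u4_2, k2] at g2
    have hb : 0 ≤ x.im := by linarith
    have e1 : Real.cos α * x.im ≤ 0 := mul_nonpos_of_nonpos_of_nonneg ca.le hb
    have e2 : Real.cos α' * x.im ≤ 0 := mul_nonpos_of_nonpos_of_nonneg ca'.le hb
    have h3 : Real.sin α * x.re ≤ 0 := by linarith
    have h4 : 0 ≤ Real.sin α' * (x.re - d) := by linarith
    have h5 : x.re ≤ 0 := nonpos_of_mul_nonpos_right h3 sa
    have h6 : 0 ≤ x.re - d := nonneg_of_mul_nonneg_right h4 sa'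
    linarith [H.dpos]

end Pool.Agent.XQ.K4.H37
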