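import Pool.Agent.Helper36_XQ.Stmt4

/-!
Squad XQ (MP_5b0138_an), part A4, module A4_LC3 (helper37): locality in the configuration of G3.
-/

set_option autoImplicit false

namespace Pool.Agent.XQ.K4.H37

open MeasureTheory Complex Filter Topology ProbabilityTheory Pool.Agent.H16Iso Pool.Agent.H62T
  Pool.Agent.H16F Pool.Agent.H38KL Pool.Agent.AEU
open scoped ENNReal NNReal

lemma ip_eq (a b : ℂ) : ip a b = a.re * b.re + a.im * b.im := rfl

lemma u3_0 (η1 η2 ζ1 ζ2 : ℝ) (x : ℂ) :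
    ip (u3 η1 η2 ζ1 ζ2 0) x = -Real.sin η1 * x.re + Real.cos η1 * x.im := by
  have h : u3 η1 η2 ζ1 ζ2 0 = I * exp (η1 * I) := rfl
  rw [h, ip_eq]
  simp only [mul_re, mul_im, I_re, I_im, Complex.exp_ofReal_mul_I_re,
    Complex.exp_ofReal_mul_I_im]
  ring

lemma u3_1 (η1 η2 ζ1 ζ2 : ℝ) (x : ℂ) :
    ip (u3 η1 η2 ζ1 ζ2 1) x = -Real.sin η2 * x.re - Real.cos η2 * x.im := by
  have h : -((η2 : ℂ) * I) = ((-η2 : ℝ) : ℂ) * I := by push_cast; ring
  have h' : u3 η1 η2 ζ1 ζ2 1 = -(I * exp (-(η2 * I))) := rfl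
  rw [h', ip_eq, h]
  simp only [neg_re, neg_im, mul_re, mul_im, I_re, I_im, Complex.exp_ofReal_mul_I_re,
    Complex.exp_ofReal_mul_I_im, Real.cos_neg, Real.sin_neg]
  ring

lemma u3_2 (η1 η2 ζ1 ζ2 : ℝ) (x : ℂ) :
    ip (u3 η1 η2 ζ1 ζ2 2) x = Real.sin ζ1 * x.re + Real.cos ζ1 * x.im := by
  have h : u3 η1 η2 ζ1 ζ2 2 = exp ((Real.pi / 2 - ζ1 : ℝ) * I) := rfl
  rw [h, ip_eq, Complex.exp_ofReal_mul_I_re, Complex.exp_ofReal_mul_I_im,
    Real.cos_pi_div_two_sub, Real.sin_pi_div_two_sub]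

lemma u3_3 (η1 η2 ζ1 ζ2 : ℝ) (x : ℂ) :
    ip (u3 η1 η2 ζ1 ζ2 3) x = Real.sin ζ2 * x.re - Real.cos ζ2 * x.im := by
  have h : u3 η1 η2 ζ1 ζ2 3 = exp ((-(Real.pi / 2 - ζ2) : ℝ) * I) := rfl
  rw [h, ip_eq, Complex.exp_ofReal_mul_I_re, Complex.exp_ofReal_mul_I_im, Real.cos_neg,
    Real.sin_neg, Real.cos_pi_div_two_sub, Real.sin_pi_div_two_sub]
  ring

lemma norm_eI (t : ℝ) : ‖exp ((t : ℂ) * I)‖ = 1 := Complex.norm_exp_ofReal_mul_I t

lemma norm_u3 (η1 η2 ζ1 ζ2 : ℝ) (s : Fin 4) : ‖u3 η1 η2 ζ1 ζ2 s‖ = 1 := by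
  fin_cases s
  · show ‖I * exp (η1 * I)‖ = 1
    rw [norm_mul, norm_I, norm_eI, one_mul]
  · show ‖-(I * exp (-(η2 * I)))‖ = 1
    have h : -((η2 : ℂ) * I) = ((-η2 : ℝ) : ℂ) * I := by push_cast; ring
    rw [h, norm_neg, norm_mul, norm_I, norm_eI, one_mul]
  · exact norm_eI _
  · exact norm_eI _

/-- the corner: sign of the first coordinate -/
lemma crn {η1 η2 a b : ℝ} (h1 : 0 < η1) (h2 : 0 < η2) (_h3 : Real.pi / 2 < η1 + η2)
    (h4 : η1 + η2 < Real.pi) (h5 : η1 ≠ Real.pi / 2) (h6 : η2 ≠ Real.pi / 2)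
    (f0 : η2 < Real.pi / 2 → 0 ≤ -Real.sin η1 * a + Real.cos η1 * b)
    (f0' : ¬ η2 < Real.pi / 2 → -Real.sin η1 * a + Real.cos η1 * b ≤ 0)
    (f1 : η1 < Real.pi / 2 → 0 ≤ -Real.sin η2 * a - Real.cos η2 * b)
    (f1' : ¬ η1 < Real.pi / 2 → -Real.sin η2 * a - Real.cos η2 * b ≤ 0) :
    a ≤ 0 ∧ (a = 0 → b = 0) := by
  have hpi := Real.pi_pos
  have hs : 0 < Real.sin (η1 + η2) := Real.sin_pos_of_pos_of_lt_pi (by linarith) h4
  rw [Real.sin_add] at hs
  by_cases hc2 : η2 < Real.pi / 2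
  · have g0 := f0 hc2
    have k2 : 0 < Real.cos η2 := Real.cos_pos_of_mem_Ioo ⟨by linarith, hc2⟩
    by_cases hc1 : η1 < Real.pi / 2
    · have g1 := f1 hc1
      have k1 : 0 < Real.cos η1 := Real.cos_pos_of_mem_Ioo ⟨by linarith, hc1⟩
      have e : 0 ≤ -(Real.sin η1 * Real.cos η2 + Real.cos η1 * Real.sin η2) * a := by
        linarith only [mul_nonneg k2.le g0, mul_nonneg k1.le g1]
      refine ⟨by nlinarith, fun ha => ?_⟩
      subst ha
      have e1 : 0 ≤ Real.cos η1 * b := by linarith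
      have e2 : Real.cos η2 * b ≤ 0 := by linarith
      exact le_antisymm (nonpos_of_mul_nonpos_right e2 k2) (nonneg_of_mul_nonneg_right e1 k1)
    · have g1 := f1' hc1
      have hc1' : Real.pi / 2 < η1 := lt_of_le_of_ne (not_lt.1 hc1) (Ne.symm h5)
      have k1 : Real.cos η1 < 0 := Real.cos_neg_of_pi_div_two_lt_of_lt hc1' (by linarith)
      have e : 0 ≤ -(Real.sin η1 * Real.cos η2 + Real.cos η1 * Real.sin η2) * a := by
        linarith only [mul_nonneg k2.le g0, mul_nonneg_of_nonpos_of_nonpos k1.le g1]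
      refine ⟨by nlinarith only [e, hs], fun ha => ?_⟩
      subst ha
      have e1 : 0 ≤ Real.cos η1 * b := by linarith
      have e2 : 0 ≤ Real.cos η2 * b := by linarith
      have e3 : 0 ≤ b := nonneg_of_mul_nonneg_right e2 k2
      nlinarith only [e3, g0, k1]
  · have g0 := f0' hc2
    have hc2' : Real.pi / 2 < η2 := lt_of_le_of_ne (not_lt.1 hc2) (Ne.symm h6)
    have k2 : Real.cos η2 < 0 := Real.cos_neg_of_pi_div_two_lt_of_lt hc2' (by linarith only [h1, h4, hc2'])
    have hc1 : η1 < Real.pi / 2 := by linarith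
    have g1 := f1 hc1
    have k1 : 0 < Real.cos η1 := Real.cos_pos_of_mem_Ioo ⟨by linarith, hc1⟩
    have e : 0 ≤ -(Real.sin η1 * Real.cos η2 + Real.cos η1 * Real.sin η2) * a := by
      linarith only [mul_nonneg_of_nonpos_of_nonpos k2.le g0, mul_nonneg k1.le g1]
    refine ⟨by nlinarith only [e, hs], fun ha => ?_⟩
    subst ha
    have e1 : Real.cos η1 * b ≤ 0 := by linarith
    have e2 : Real.cos η2 * b ≤ 0 := by linarith
    have e3 : b ≤ 0 := nonpos_of_mul_nonpos_right e1 k1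
    nlinarith only [g1, k2, e3]

theorem lc3 (h1 : LccStatement) : Lc3Statement := by
  intro η1 η2 ζ1 ζ2 d H
  refine h1 _ _ _ _ (norm_u3 η1 η2 ζ1 ζ2) ?_ ?_
  · intro x hx
    by_contra hcon
    push Not at hcon
    obtain ⟨hM, hE⟩ := hcon
    have hv := crn (a := x.re) (b := x.im) H.a1 H.a2 H.a3 H.a4 H.a5 H.a6
      (fun h => by
        have := hM 0 (Finset.mem_union_left _ (by simp [Mv, h]))
        rwa [u3_0] at this)
      (fun h => by
        have := hE 0 (Finset.mem_union_left _ (by simp [Ev, h]))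
        rwa [u3_0] at this)
      (fun h => by
        have := hM 1 (Finset.mem_union_left _ (by simp [Mv, h]))
        rwa [u3_1] at this)
      (fun h => by
        have := hE 1 (Finset.mem_union_left _ (by simp [Ev, h]))
        rwa [u3_1] at this)
    have hw := crn (a := -x.re) (b := x.im) H.b1 H.b2 H.b3 H.b4 H.b5 H.b6
      (fun h => by
        have := hM 2 (Finset.mem_union_right _ (by simp [Mw, h]))
        rw [u3_2] at this; linarith)
      (fun h => by
        have := hE 2 (Finset.mem_union_right _ (by simp [Ew, h]))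
        rw [u3_2] at this; linarith)
      (fun h => by
        have := hM 3 (Finset.mem_union_right _ (by simp [Mw, h]))
        rw [u3_3] at this; linarith)
      (fun h => by
        have := hE 3 (Finset.mem_union_right _ (by simp [Ew, h]))
        rw [u3_3] at this; linarith)
    have ha : x.re = 0 := le_antisymm hv.1 (by linarith [hw.1])
    exact hx (Complex.ext ha (hv.2 ha))
  · rintro ⟨x, hM, hE⟩
    have hv := crn (a := x.re) (b := x.im) H.a1 H.a2 H.a3 H.a4 H.a5 H.a6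
      (fun h => by
        have := hM 0 (Finset.mem_union_left _ (by simp [Mv, h]))
        rw [u3_0] at this; simpa [h3] using this)
      (fun h => by
        have := hE 0 (Finset.mem_union_left _ (by simp [Ev, h]))
        rw [u3_0] at this; simpa [h3] using this)
      (fun h => by
        have := hM 1 (Finset.mem_union_left _ (by simp [Mv, h]))
        rw [u3_1] at this; simpa [h3] using this)
      (fun h => by
        have := hE 1 (Finset.mem_union_left _ (by simp [Ev, h]))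
        rw [u3_1] at this; simpa [h3] using this)
    have e2 : h3 ζ1 ζ2 d 2 = Real.sin ζ1 * d := by
      have h : h3 ζ1 ζ2 d 2 = ip (u3 η1 η2 ζ1 ζ2 2) d := rfl
      rw [h, u3_2]; simp
    have e3 : h3 ζ1 ζ2 d 3 = Real.sin ζ2 * d := by
      have h : h3 ζ1 ζ2 d 3 = ip (u3 η1 η2 ζ1 ζ2 3) d := rfl
      rw [h, u3_3]; simp
    have hw := crn (a := d - x.re) (b := x.im) H.b1 H.b2 H.b3 H.b4 H.b5 H.b6
      (fun h => by
        have := hM 2 (Finset.mem_union_right _ (by simp [Mw, h]))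
        rw [u3_2, e2] at this; linarith)
      (fun h => by
        have := hE 2 (Finset.mem_union_right _ (by simp [Ew, h]))
        rw [u3_2, e2] at this; linarith)
      (fun h => by
        have := hM 3 (Finset.mem_union_right _ (by simp [Mw, h]))
        rw [u3_3, e3] at this; linarith)
      (fun h => by
        have := hE 3 (Finset.mem_union_right _ (by simp [Ew, h]))
        rw [u3_3, e3] at this; linarith)
    linarith [hv.1, hw.1, H.dpos]

end Pool.Agent.XQ.K4.H37
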